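import Mathlib
import Pool.Agent.L7h73.Scft

set_option autoImplicit false

/-!
# Every forcing preserves winning strategies of player II in the strong countable fan tightness game
on a space of continuous functions

This answers Q1 affirmatively; strong properness is not needed. The definitions used in the
statement are in `Pool/Agent/L7h73/Scft.lean` (the game, in the ground model and in the extension)
and `Pool/Agent/Helper669/Forcing.lean` (the forcing relation: a sentence is the set of the
conditions which force it).
-/

namespace Pool.Agent.Results.MP_abf503_lc.EveryForcingCp

open Pool.Agent.L7h73.Scft Pool.Agent.Helper669.Forcing

universe u v

/-- `C_p(X)`: the continuous functions from `X` to `ℝ`, with the subspace topology of the product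
topology on `X → ℝ`, that is, the topology of pointwise convergence. -/
abbrev Cp (X : Type v) [TopologicalSpace X] : Type v := {f : X → ℝ // Continuous f}

/-- Let `X` be a topological space and `P` any forcing notion (in particular, one which is strongly
proper for stationarily many models). If player II has a winning strategy in the strong countable
fan tightness game at every point of `C_p(X)`, then every condition of `P` forces that player II has
a winning strategy in this game at every point of `C_p(X)`, for the topology which has the open sets
of the ground model as a base. -/
theorem result (P : Type u) [Preorder P] (X : Type v) [TopologicalSpace X]
    (h : ∀ y : Cp X, TwoWins y) (p : P) : p ∈ fall fun y : Cp X => TwoWinsExt P y :=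
  fun y => main y (h y) p

end Pool.Agent.Results.MP_abf503_lc.EveryForcingCp
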